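import Pool.Agent.WIR.StmtsB

set_option autoImplicit false

/-! Squad WIR (MP_0f3fac_nt), row TRS: one trial. -/

namespace Pool.Agent.WIR.H44

open scoped BigOperators
open Pool.Agent.WIR

theorem trs (hFPS : FpsStmt) (hMON : MonStmt) (hGKM : GkmStmt) (hGCH : GchStmt) : TrsStmt := by
  intro B s V l Y γ hY hγ0 hγ1 hV0 hV1 hVK hVY hVg
  obtain ⟨hmono, _, hmass, _⟩ := hMON
  have h1 := hFPS B s (s + 1) V l hV0 hV1 (fun k x _ h => hVK k x h)
  have hempty : (Finset.range (s + 1)).filter (fun r => s + 1 ≤ r) = ∅ := by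
    rw [Finset.filter_eq_empty_iff]
    intro r hr
    rw [Finset.mem_range] at hr
    omega
  rw [hempty, Finset.sum_empty, add_zero] at h1
  refine h1.trans ?_
  unfold FPE
  have hX1 : ∀ r ∈ Finset.range (s + 1), (if Even r then Kh B (V (r / 2 + 1)) (l + s)
      else Gh B (V (r / 2 + 1)) (l + s)) ≤ Y := by
    intro r hr
    rw [Finset.mem_range] at hr
    have h2 : ∀ x, l + s < x → x ≤ B → V (r / 2 + 1) x ≤ (fun _ => Y) x := by
      intro x hx _
      have h3 := hVY (r / 2) (x - (l + s)) (by omega) (by omega)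
      rwa [Nat.add_sub_cancel' hx.le] at h3
    obtain ⟨h3, h4⟩ := hmono B (V (r / 2 + 1)) (fun _ => Y) (l + s) h2
    obtain ⟨h5, h6⟩ := hmass B Y (l + s) hY
    by_cases he : Even r
    · rw [if_pos he]
      exact h4.trans h6
    · rw [if_neg he]
      exact h3.trans h5
  have hX2 : ∀ r ∈ Finset.range (s + 1), 100 * (r / 2) ≤ 31 * s + 900 →
      (if Even r then Kh B (V (r / 2 + 1)) (l + s)
      else Gh B (V (r / 2 + 1)) (l + s)) ≤ (1 - 9 / 10 * γ) * Y := by
    intro r hr hg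
    rw [Finset.mem_range] at hr
    have h2 : ∀ x, l + s < x → x ≤ B → V (r / 2 + 1) x ≤
        (fun x => if x ≤ l + s + 9 then (1 - γ) * Y else Y) x := by
      intro x hx _
      show V (r / 2 + 1) x ≤ if x ≤ l + s + 9 then (1 - γ) * Y else Y
      by_cases h9 : x ≤ l + s + 9
      · rw [if_pos h9]
        have h3 := hVg (r / 2) (x - (l + s)) (by omega) (by omega) hg (by omega)
        rwa [Nat.add_sub_cancel' hx.le] at h3
      · rw [if_neg h9]
        have h3 := hVY (r / 2) (x - (l + s)) (by omega) (by omega)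
        rwa [Nat.add_sub_cancel' hx.le] at h3
    obtain ⟨h3, h4⟩ := hmono B (V (r / 2 + 1)) _ (l + s) h2
    obtain ⟨h5, h6⟩ := hGKM B (l + s) γ Y hγ0 hγ1 hY
    by_cases he : Even r
    · rw [if_pos he]
      exact h4.trans h6
    · rw [if_neg he]
      exact h3.trans h5
  have hterm : ∀ r ∈ Finset.range (s + 1), (s.choose r : ℝ) * (1 / 2 : ℝ) ^ s *
      (if r < s + 1 then (if Even r then Kh B (V (r / 2 + 1)) (l + s)
      else Gh B (V (r / 2 + 1)) (l + s)) else 0) ≤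
      (1 / 2 : ℝ) ^ s * ((1 - 9 / 10 * γ) * Y) * (s.choose r : ℝ) +
      (1 / 2 : ℝ) ^ s * (9 / 10 * γ * Y) *
        (if 31 * s + 900 < 100 * (r / 2) then (s.choose r : ℝ) else 0) := by
    intro r hr
    have hw : 0 ≤ (s.choose r : ℝ) * (1 / 2 : ℝ) ^ s := by positivity
    rw [if_pos (Finset.mem_range.1 hr)]
    by_cases hb : 31 * s + 900 < 100 * (r / 2)
    · rw [if_pos hb]
      have h2 := mul_le_mul_of_nonneg_left (hX1 r hr) hw
      refine h2.trans (le_of_eq ?_)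
      ring
    · rw [if_neg hb]
      have h2 := mul_le_mul_of_nonneg_left (hX2 r hr (not_lt.1 hb)) hw
      refine h2.trans (le_of_eq ?_)
      ring
  refine (Finset.sum_le_sum hterm).trans ?_
  rw [Finset.sum_add_distrib, ← Finset.mul_sum, ← Finset.mul_sum, ← Finset.sum_filter]
  have hsum : ∑ r ∈ Finset.range (s + 1), (s.choose r : ℝ) = 2 ^ s := by
    exact_mod_cast Nat.sum_range_choose s
  rw [hsum]
  have hbad := hGCH s
  have hhalf : (1 / 2 : ℝ) ^ s * 2 ^ s = 1 := by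
    rw [← mul_pow]
    norm_num
  have hgY : 0 ≤ 9 / 10 * γ * Y := by positivity
  have h3 : (1 / 2 : ℝ) ^ s * (9 / 10 * γ * Y) *
      ∑ r ∈ (Finset.range (s + 1)).filter (fun r => 31 * s + 900 < 100 * (r / 2)),
        (s.choose r : ℝ) ≤ (1 / 2 : ℝ) ^ s * (9 / 10 * γ * Y) * (2 ^ s / 10) :=
    mul_le_mul_of_nonneg_left hbad (by positivity)
  have h4 : (1 / 2 : ℝ) ^ s * (9 / 10 * γ * Y) * (2 ^ s / 10) = 9 / 100 * γ * Y := by
    have : (1 / 2 : ℝ) ^ s * (9 / 10 * γ * Y) * (2 ^ s / 10) =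
        ((1 / 2 : ℝ) ^ s * 2 ^ s) * (9 / 100 * γ * Y) := by ring
    rw [this, hhalf, one_mul]
  have h5 : (1 / 2 : ℝ) ^ s * ((1 - 9 / 10 * γ) * Y) * 2 ^ s = (1 - 9 / 10 * γ) * Y := by
    have : (1 / 2 : ℝ) ^ s * ((1 - 9 / 10 * γ) * Y) * 2 ^ s =
        ((1 / 2 : ℝ) ^ s * 2 ^ s) * ((1 - 9 / 10 * γ) * Y) := by ring
    rw [this, hhalf, one_mul]
  rw [h5]
  have h6 : 0 ≤ γ * Y := mul_nonneg hγ0 hY
  linarith

end Pool.Agent.WIR.H44
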